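import Pool.Agent.RDO.Stmts

/-! RDO, row RCP (helper7): rotation invariance of the cap -/

set_option autoImplicit false

open MeasureTheory

namespace Pool.Agent.RDO.H7

theorem inner_coord (x : P2) (θ : ℝ) : inner ℝ x (ev θ) = x 0 * Real.cos θ + x 1 * Real.sin θ := by
  simp only [ev, PiLp.inner_apply, Fin.sum_univ_two, RCLike.inner_apply, conj_trivial]
  simp
  ring

theorem inner_ev (a b : ℝ) : inner ℝ (ev a) (ev b) = Real.cos (a - b) := by
  rw [inner_coord, Real.cos_sub]
  simp [ev]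

theorem exists_iso (θ : ℝ) : ∃ f : P2 ≃ₗᵢ[ℝ] P2, ∀ x, f x 0 = inner ℝ x (ev θ) := by
  have hon : Orthonormal ℝ (![ev θ, ev (θ + Real.pi / 2)] : Fin 2 → P2) := by
    rw [orthonormal_iff_ite]
    intro i j
    fin_cases i <;> fin_cases j
    · show inner ℝ (ev θ) (ev θ) = _
      rw [inner_ev]; simp
    · show inner ℝ (ev θ) (ev (θ + Real.pi / 2)) = _
      rw [inner_ev]; simp
    · show inner ℝ (ev (θ + Real.pi / 2)) (ev θ) = _
      rw [inner_ev]; simp
    · show inner ℝ (ev (θ + Real.pi / 2)) (ev (θ + Real.pi / 2)) = _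
      rw [inner_ev]; simp
  have hcard : Fintype.card (Fin 2) = Module.finrank ℝ P2 := by simp
  let b := (basisOfOrthonormalOfCardEqFinrank hon hcard).toOrthonormalBasis (by
    rw [coe_basisOfOrthonormalOfCardEqFinrank]; exact hon)
  refine ⟨b.repr, fun x => ?_⟩
  rw [OrthonormalBasis.repr_apply_apply]
  have : b 0 = ev θ := by
    simp [b]
  rw [this, real_inner_comm]

/-- RCP -/
theorem rcp : RcpStmt := by
  intro q θ
  obtain ⟨f, hf⟩ := exists_iso θ
  have h1 : {x : P2 | x ∈ Metric.closedBall (0 : P2) 1 ∧ q ≤ inner ℝ x (ev θ)} =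
      f ⁻¹' (Cap q) := by
    ext x
    simp only [Set.mem_ofPred_eq, Set.mem_preimage, Cap, Metric.mem_closedBall,
      dist_zero_right, hf, LinearIsometryEquiv.norm_map]
  rw [h1]
  exact f.measurePreserving.measure_preimage_equiv (f := f.toHomeomorph.toMeasurableEquiv) _

end Pool.Agent.RDO.H7
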